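import Pool.Agent.H26.REM.Targets3

set_option autoImplicit false

/-!
# GQP: the primes at which the `a i` are units are good
-/

namespace Pool.Agent.H49.REM

open Pool.Agent.H26.REM NumberField Pool.Agent.H24.RD Pool.Agent.H29.LG

theorem gq_nat (w : AbsoluteValue ℚ ℝ) (p : ℕ) (hp : p.Prime)
    (h : ∀ m : ℕ, ¬ p ∣ m → w (m : ℚ) = 1) (n : ℕ) (hn : n ≠ 0) :
    w (n : ℚ) = w (p : ℚ) ^ padicValNat p n := by
  haveI : Fact p.Prime := ⟨hp⟩
  obtain ⟨u, hu⟩ := pow_padicValNat_dvd (p := p) (n := n)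
  have hpu : ¬ p ∣ u := by
    rintro ⟨c, hc⟩
    apply pow_succ_padicValNat_not_dvd (p := p) hn
    refine ⟨c, ?_⟩
    calc n = p ^ padicValNat p n * u := hu
      _ = _ := by rw [hc, pow_succ, mul_assoc]
  have h1 : (n : ℚ) = (p : ℚ) ^ padicValNat p n * (u : ℚ) := by exact_mod_cast hu
  calc w (n : ℚ) = w ((p : ℚ) ^ padicValNat p n * (u : ℚ)) := by rw [← h1]
    _ = _ := by rw [map_mul, map_pow, h u hpu, mul_one]

theorem pf_GQP (hVB : Pool.Agent.H24.RD.T_VB) : T_GQP := by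
  intro r a ha p hp hpa
  refine ⟨hp, fun w hw => ?_⟩
  obtain ⟨-, hp0, -, hunit, -⟩ := hVB ℚ p hp w hw
  have key : ∀ x : ℚ, x ≠ 0 → w.1 x = w.1 (p : ℚ) ^ padicValRat p x := by
    intro x hx
    have h1 : x = (x.num : ℚ) / (x.den : ℚ) := (Rat.num_div_den x).symm
    have h2 : w.1 (x.num : ℚ) = w.1 ((x.num.natAbs : ℕ) : ℚ) := by
      rcases Int.natAbs_eq x.num with h | h
      · conv_lhs => rw [h]
        rw [Int.cast_natCast]
      · conv_lhs => rw [h]
        rw [Int.cast_neg, Int.cast_natCast, map_neg_eq_map]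
    have hnum : x.num.natAbs ≠ 0 := by
      rw [Int.natAbs_ne_zero]
      exact Rat.num_ne_zero.2 hx
    calc w.1 x = w.1 ((x.num : ℚ) / (x.den : ℚ)) := by rw [← h1]
      _ = w.1 (p : ℚ) ^ padicValNat p x.num.natAbs / w.1 (p : ℚ) ^ padicValNat p x.den := by
          rw [map_div₀, h2, gq_nat w.1 p hp hunit _ hnum, gq_nat w.1 p hp hunit _ x.den_nz]
      _ = w.1 (p : ℚ) ^ padicValRat p x := by
          unfold padicValRat padicValInt
          rw [zpow_sub₀ hp0.ne', zpow_natCast, zpow_natCast]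
  refine ⟨fun x hx => ⟨_, key x hx⟩, fun i => ?_⟩
  rw [key _ (ha i), hpa i, zpow_zero]

end Pool.Agent.H49.REM
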