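import Pool.Agent.H26.REM.Targets2

set_option autoImplicit false

/-!
# ADE: the descent
-/

namespace Pool.Agent.H49.REM

open Pool.Agent.H26.REM NumberField Finset Polynomial

section gen

variable {Ω : Type} [Field Ω] [CharZero Ω]

theorem ad_eq_on (s : Set Ω) (σ σ' : Ω ≃ₐ[ℚ] Ω) (h : ∀ z ∈ s, σ z = σ' z) :
    ∀ z ∈ IntermediateField.adjoin ℚ s, σ z = σ' z := by
  intro z hz
  refine IntermediateField.adjoin_induction (F := ℚ) (s := s) (p := fun z _ => σ z = σ' z)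
    (fun x hx => h x hx) ?_ ?_ ?_ ?_ hz
  · intro x
    rw [σ.commutes, σ'.commutes]
  · intro x y _ _ hx hy
    rw [map_add, map_add, hx, hy]
  · intro x _ hx
    rw [map_inv₀, map_inv₀, hx]
  · intro x y _ _ hx hy
    rw [map_mul, map_mul, hx, hy]

theorem ad_bez (σ σ' : Ω ≃ₐ[ℚ] Ω) (z : Ω) (hz : z ≠ 0) (A B : ℕ) (h : Nat.Coprime A B)
    (hA : σ (z ^ A) = σ' (z ^ A)) (hB : σ (z ^ B) = σ' (z ^ B)) : σ z = σ' z := by
  have h1 := Nat.gcd_eq_gcd_ab A B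
  rw [Nat.Coprime.gcd_eq_one h] at h1
  have h2 : z = (z ^ A) ^ (Nat.gcdA A B) * (z ^ B) ^ (Nat.gcdB A B) := by
    rw [← zpow_natCast z A, ← zpow_natCast z B, ← zpow_mul, ← zpow_mul, ← zpow_add₀ hz, ← h1,
      Nat.cast_one, zpow_one]
  rw [h2, map_mul, map_mul, map_zpow₀, map_zpow₀, map_zpow₀, map_zpow₀, hA, hB]

/-- the common end of the two cases -/
theorem ad_final [IsAlgClosed Ω] [Algebra.IsAlgebraic ℚ Ω] {r : ℕ} (ζ : Ω) (θ : Fin r → Ω)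
    (p : ℕ) (β : Ω) (hβ : β ∈ IntermediateField.adjoin ℚ (insert ζ (Set.range θ)))
    (E0 : IntermediateField ℚ Ω)
    (hE0 : E0 = IntermediateField.adjoin ℚ (insert (ζ ^ p) (Set.range θ)))
    (τ0 : Ω ≃ₐ[ℚ] Ω) (hτ0 : τ0 ∈ E0.fixingSubgroup)
    (hgen : ∀ τ ∈ E0.fixingSubgroup, ∃ n : ℤ, τ ζ = (τ0 ^ n) ζ) (η : Ω)
    (hη : η ∈ IntermediateField.adjoin ℚ (insert ζ (Set.range θ)))
    (hfix : τ0 (η * β) = η * β) : η * β ∈ E0 := by
  haveI : IsAlgClosure ℚ Ω := ⟨inferInstance, inferInstance⟩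
  haveI : IsGalois ℚ Ω := ⟨⟩
  rw [← InfiniteGalois.fixedField_fixingSubgroup E0]
  rw [IntermediateField.mem_fixedField_iff]
  intro τ hτ
  obtain ⟨n, hn⟩ := hgen τ hτ
  have hθ : ∀ i, θ i ∈ E0 := fun i => by
    rw [hE0]
    exact IntermediateField.subset_adjoin ℚ _ (Set.mem_insert_of_mem _ ⟨i, rfl⟩)
  have hτ0n : τ0 ^ n ∈ E0.fixingSubgroup := zpow_mem hτ0 n
  rw [IntermediateField.mem_fixingSubgroup_iff] at hτ hτ0n
  have h1 : τ (η * β) = (τ0 ^ n) (η * β) := by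
    refine ad_eq_on (insert ζ (Set.range θ)) τ (τ0 ^ n) ?_ _ (mul_mem hη hβ)
    intro x hx
    rcases hx with rfl | ⟨i, rfl⟩
    · exact hn
    · rw [hτ _ (hθ i), hτ0n _ (hθ i)]
  rw [h1]
  have h2 : τ0 ∈ MulAction.stabilizer (Ω ≃ₐ[ℚ] Ω) (η * β) := hfix
  have h3 : τ0 ^ n ∈ MulAction.stabilizer (Ω ≃ₐ[ℚ] Ω) (η * β) := zpow_mem h2 n
  exact h3

end gen

theorem pf_ADE : T_ADE := by
  classical
  intro Ω _ _ _ _ r m ζ θ hm hζ p hp hp3 hpm β hβ hβ0 hτ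
  obtain ⟨E0, hE0⟩ : ∃ E0 : IntermediateField ℚ Ω,
      E0 = IntermediateField.adjoin ℚ (insert (ζ ^ p) (Set.range θ)) := ⟨_, rfl⟩
  have hζp : ζ ^ p ∈ E0 := by
    rw [hE0]
    exact IntermediateField.subset_adjoin ℚ _ (Set.mem_insert _ _)
  have hθ : ∀ i, θ i ∈ E0 := fun i => by
    rw [hE0]
    exact IntermediateField.subset_adjoin ℚ _ (Set.mem_insert_of_mem _ ⟨i, rfl⟩)
  have hζM : ζ ∈ IntermediateField.adjoin ℚ (insert ζ (Set.range θ)) :=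
    IntermediateField.subset_adjoin ℚ _ (Set.mem_insert _ _)
  have hζ0 : ζ ≠ 0 := hζ.ne_zero hm.ne'
  have hG : ∀ τ ∈ E0.fixingSubgroup, ∀ x ∈ E0, τ x = x := fun τ hτ =>
    (IntermediateField.mem_fixingSubgroup_iff E0 τ).1 hτ
  have hβp : ∀ τ ∈ E0.fixingSubgroup, (τ β / β) ^ p = 1 := by
    intro τ h
    rw [div_pow, hτ τ (hG τ h _ hζp) (fun i => hG τ h _ (hθ i)), div_self (pow_ne_zero _ hβ0)]
  haveI : NeZero p := ⟨hp.ne_zero⟩
  rw [← hE0]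
  by_cases hp2 : p ^ 2 ∣ m
  · -- the first case
    obtain ⟨q, hq⟩ := hp2
    have hz0 : IsPrimitiveRoot ((ζ ^ p) ^ q) p := by
      rw [← pow_mul]
      exact hζ.pow hm (by rw [hq]; ring)
    have hzE : (ζ ^ p) ^ q ∈ E0 := pow_mem hζp q
    have hrt : ∀ x : Ω, x ^ p = 1 → x ∈ E0 := by
      intro x hx
      obtain ⟨i, -, hi⟩ := hz0.eq_pow_of_pow_eq_one hx
      rw [← hi]
      exact pow_mem hzE i
    have hω : ∀ τ ∈ E0.fixingSubgroup, (τ ζ / ζ) ^ p = 1 := by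
      intro τ h
      rw [div_pow, ← map_pow, hG τ h _ hζp, div_self (pow_ne_zero _ hζ0)]
    by_cases hall : ∀ τ ∈ E0.fixingSubgroup, τ ζ = ζ
    · refine ⟨1, 1, one_pos, one_pow _, ?_⟩
      refine ad_final ζ θ p β hβ E0 hE0 1 (one_mem _) ?_ 1 (one_mem _) rfl
      intro τ h
      refine ⟨0, ?_⟩
      rw [zpow_zero, hall τ h]
      rfl
    · push Not at hall
      obtain ⟨τ0, hτ0, hne⟩ := hall
      obtain ⟨ω, hωd⟩ : ∃ ω, ω = τ0 ζ / ζ := ⟨_, rfl⟩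
      have hωp : ω ^ p = 1 := by rw [hωd]; exact hω τ0 hτ0
      have hω1 : ω ≠ 1 := by
        rw [hωd]
        intro h
        rw [div_eq_one_iff_eq hζ0] at h
        exact hne h
      haveI : Fact p.Prime := ⟨hp⟩
      have hprim : IsPrimitiveRoot ω p := by
        rw [IsPrimitiveRoot.iff_orderOf]
        exact orderOf_eq_prime hωp hω1
      have hωE : ω ∈ E0 := hrt ω hωp
      have hτζ : τ0 ζ = ω * ζ := by rw [hωd, div_mul_cancel₀ _ hζ0]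
      have hpow : ∀ i : ℕ, (τ0 ^ i) ζ = ω ^ i * ζ := by
        intro i
        induction i with
        | zero => rw [pow_zero, pow_zero, one_mul]; rfl
        | succ i ih =>
          rw [pow_succ', AlgEquiv.mul_apply, ih, map_mul, map_pow, hG τ0 hτ0 _ hωE, hτζ,
            pow_succ]
          ring
      obtain ⟨j, -, hj⟩ := hprim.eq_pow_of_pow_eq_one (hβp τ0 hτ0)
      have hτβ : τ0 β = ω ^ j * β := by rw [hj, div_mul_cancel₀ _ hβ0]
      refine ⟨(ζ⁻¹) ^ j, m, hm, ?_, ?_⟩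
      · rw [← pow_mul, mul_comm, pow_mul, inv_pow, hζ.pow_eq_one, inv_one, one_pow]
      · refine ad_final ζ θ p β hβ E0 hE0 τ0 hτ0 ?_ _ (pow_mem (inv_mem hζM) j) ?_
        · intro τ h
          obtain ⟨i, -, hi⟩ := hprim.eq_pow_of_pow_eq_one (hω τ h)
          refine ⟨(i : ℤ), ?_⟩
          rw [zpow_natCast, hpow, hi, div_mul_cancel₀ _ hζ0]
        · rw [map_mul, map_pow, map_inv₀, hτζ, hτβ]
          have hω0 : ω ≠ 0 := hprim.ne_zero hp.ne_zero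
          rw [mul_inv, mul_pow, inv_pow ω]
          field_simp
  · -- the second case
    obtain ⟨m0, hm0⟩ := hpm
    have hpm0 : ¬ p ∣ m0 := by
      rintro ⟨c, hc⟩
      apply hp2
      exact ⟨c, by rw [hm0, hc]; ring⟩
    obtain ⟨z, hz⟩ : ∃ z, z = ζ ^ m0 := ⟨_, rfl⟩
    have hzp : IsPrimitiveRoot z p := by
      rw [hz]
      exact hζ.pow hm (by rw [hm0, mul_comm])
    have hcop : Nat.Coprime p m0 := (Nat.Prime.coprime_iff_not_dvd hp).2 hpm0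
    haveI : Fact p.Prime := ⟨hp⟩
    have hag : ∀ τ ∈ E0.fixingSubgroup, ∀ σ ∈ E0.fixingSubgroup, τ z = σ z → τ ζ = σ ζ := by
      intro τ h σ h' h2
      refine ad_bez τ σ ζ hζ0 p m0 hcop ?_ ?_
      · rw [hG τ h _ hζp, hG σ h' _ hζp]
      · rw [← hz]
        exact h2
    -- the cyclotomic character
    obtain ⟨χ, hχ⟩ : ∃ χ : (Ω ≃ₐ[ℚ] Ω) →* (ZMod p)ˣ, ∀ f : Ω ≃ₐ[ℚ] Ω,
        z ^ (χ f : ZMod p).val = f z :=
      ⟨hzp.autToPow ℚ, fun f => hzp.autToPow_spec ℚ f⟩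
    obtain ⟨g, hg⟩ := IsCyclic.exists_generator (α := E0.fixingSubgroup.map χ)
    obtain ⟨τ0, hτ0, hτ0g⟩ := Subgroup.mem_map.1 g.2
    have hgen : ∀ τ ∈ E0.fixingSubgroup, ∃ n : ℤ, τ ζ = (τ0 ^ n) ζ := by
      intro τ h
      obtain ⟨n, hn⟩ := Subgroup.mem_zpowers_iff.1
        (hg ⟨χ τ, Subgroup.mem_map_of_mem χ h⟩)
      refine ⟨n, hag τ h _ (zpow_mem hτ0 n) ?_⟩
      have h1 : χ τ = χ (τ0 ^ n) := by
        rw [map_zpow, hτ0g, ← Subgroup.coe_zpow]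
        have h2 := congrArg Subtype.val hn
        exact h2.symm
      rw [← hχ τ, ← hχ (τ0 ^ n), h1]
    obtain ⟨j, -, hj⟩ := hzp.eq_pow_of_pow_eq_one (hβp τ0 hτ0)
    have hτβ : τ0 β = z ^ j * β := by rw [hj, div_mul_cancel₀ _ hβ0]
    have hzM : z ∈ IntermediateField.adjoin ℚ (insert ζ (Set.range θ)) := by
      rw [hz]
      exact pow_mem hζM m0
    obtain ⟨u, hu⟩ : ∃ u : ZMod p, u = (χ τ0 : ZMod p) := ⟨_, rfl⟩
    have hτz : τ0 z = z ^ u.val := by rw [hu, hχ]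
    by_cases hu1 : u = 1
    · -- then `τ0` is trivial
      have hone : τ0 z = (1 : Ω ≃ₐ[ℚ] Ω) z := by
        rw [hτz, hu1]
        haveI : Fact (1 < p) := ⟨hp.one_lt⟩
        rw [ZMod.val_one, pow_one]
        rfl
      have h1 : τ0 ζ = ζ := hag τ0 hτ0 1 (one_mem _) hone
      refine ⟨1, 1, one_pos, one_pow _, ?_⟩
      refine ad_final ζ θ p β hβ E0 hE0 τ0 hτ0 hgen 1 (one_mem _) ?_
      rw [one_mul]
      refine ad_eq_on (insert ζ (Set.range θ)) τ0 AlgEquiv.refl ?_ β hβ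
      intro x hx
      rcases hx with rfl | ⟨i, rfl⟩
      · exact h1
      · exact hG τ0 hτ0 _ (hθ i)
    · obtain ⟨l, hl⟩ : ∃ l : ZMod p, u * l + (j : ZMod p) = l := by
        refine ⟨(j : ZMod p) / (1 - u), ?_⟩
        have h1 : (1 : ZMod p) - u ≠ 0 := fun h => hu1 (sub_eq_zero.1 h).symm
        field_simp
        ring
      refine ⟨z ^ l.val, p, hp.pos, ?_, ?_⟩
      · rw [← pow_mul, mul_comm, pow_mul, hzp.pow_eq_one, one_pow]
      · refine ad_final ζ θ p β hβ E0 hE0 τ0 hτ0 hgen _ (pow_mem hzM _) ?_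
        rw [map_mul, map_pow, hτz, hτβ, ← pow_mul, ← mul_assoc, ← pow_add]
        congr 1
        have h5 : ((u.val * l.val + j : ℕ) : ZMod p) = ((l.val : ℕ) : ZMod p) := by
          push_cast
          rw [ZMod.natCast_zmod_val, ZMod.natCast_zmod_val]
          exact hl
        have h6 : (u.val * l.val + j) % p = l.val % p :=
          (ZMod.natCast_eq_natCast_iff _ _ _).1 h5
        rw [pow_eq_pow_mod _ hzp.pow_eq_one, h6, ← pow_eq_pow_mod _ hzp.pow_eq_one]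

end Pool.Agent.H49.REM
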