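import Pool.Agent.H26.REM.Targets3

set_option autoImplicit false

/-!
# LFT: extension of an automorphism over the lower level field
-/

namespace Pool.Agent.H49.REM

open Pool.Agent.H26.REM NumberField Finset Polynomial Pool.Agent.H24.RD Pool.Agent.H29.LG

section gen

variable {Ω : Type} [Field Ω] [CharZero Ω]

theorem lf_eq_on (s : Set Ω) (σ σ' : Ω ≃ₐ[ℚ] Ω) (h : ∀ z ∈ s, σ z = σ' z) :
    ∀ z ∈ IntermediateField.adjoin ℚ s, σ z = σ' z := by
  intro z hz
  refine IntermediateField.adjoin_induction (F := ℚ) (s := s) (p := fun z _ => σ z = σ' z)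
    (fun x hx => h x hx) ?_ ?_ ?_ ?_ hz
  · intro x
    rw [σ.commutes, σ'.commutes]
  · intro x y _ _ hx hy
    rw [map_add, map_add, hx, hy]
  · intro x _ hx
    rw [map_inv₀, map_inv₀, hx]
  · intro x y _ _ hx hy
    rw [map_mul, map_mul, hx, hy]

theorem lf_bez (σ σ' : Ω ≃ₐ[ℚ] Ω) (z : Ω) (hz : z ≠ 0) (A B : ℕ) (h : Nat.Coprime A B)
    (hA : σ (z ^ A) = σ' (z ^ A)) (hB : σ (z ^ B) = σ' (z ^ B)) : σ z = σ' z := by
  have h1 := Nat.gcd_eq_gcd_ab A B
  rw [Nat.Coprime.gcd_eq_one h] at h1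
  have h2 : z = (z ^ A) ^ (Nat.gcdA A B) * (z ^ B) ^ (Nat.gcdB A B) := by
    rw [← zpow_natCast z A, ← zpow_natCast z B, ← zpow_mul, ← zpow_mul, ← zpow_add₀ hz, ← h1,
      Nat.cast_one, zpow_one]
  rw [h2, map_mul, map_mul, map_zpow₀, map_zpow₀, map_zpow₀, map_zpow₀, hA, hB]

end gen

/-- the value of `1 - ζ` -/
theorem lf_val {M : Type} [Field M] (v : AbsoluteValue M ℝ) (p : ℕ) (x : M) (hx : x ≠ 0)
    (t : ℝ) (hp0 : 0 < v (p : M)) (hp1 : v (p : M) < 1) (h : wv v p x = t) :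
    v x = v (p : M) ^ t := by
  have hlog : Real.log (v (p : M)) < 0 := Real.log_neg hp0 hp1
  unfold wv at h
  rw [div_eq_iff hlog.ne] at h
  have hvx : 0 < v x := v.pos hx
  rw [Real.rpow_def_of_pos hp0, mul_comm, ← h, Real.exp_log hvx]

/-- the degree over a field in which the prime is unramified -/
theorem lf_deg (hVLI : T_VLI) (hVB : T_VB) {Ω : Type} [Field Ω] [CharZero Ω]
    (L0 M : IntermediateField ℚ Ω) [NumberField M] (hle : L0 ≤ M) (p k : ℕ) (hp : p.Prime)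
    (hk : 1 ≤ k) (z : Ω) (hz : IsPrimitiveRoot z (p ^ k)) (hzM : z ∈ M) (w : FinitePlace M)
    (hw : w.1 (p : M) < 1)
    (hunr : ∀ x : M, (x : Ω) ∈ L0 → x ≠ 0 → ∃ n : ℤ, w.1 x = w.1 (p : M) ^ n) :
    (p ^ k).totient ≤ (minpoly L0 z).natDegree := by
  classical
  obtain ⟨hna, hp0, -, -, -, hval, -⟩ := hVB M p hp w hw
  -- the algebra structure
  letI : Algebra L0 M := (IntermediateField.inclusion hle).toRingHom.toAlgebra
  have halg : ∀ x : L0, ((algebraMap L0 M x : M) : Ω) = (x : Ω) := fun x => rfl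
  have hpM : 2 ≤ p := hp.two_le
  have hz' : IsPrimitiveRoot (⟨z, hzM⟩ : M) (p ^ k) := by
    refine IsPrimitiveRoot.of_map_of_injective (f := M.val) ?_ M.val.injective
    exact hz
  have hv := hval k ⟨z, hzM⟩ hk hz'
  have hne : (1 : M) - ⟨z, hzM⟩ ≠ 0 := by
    intro h
    have h1 : (⟨z, hzM⟩ : M) = 1 := (sub_eq_zero.1 h).symm
    refine hz'.ne_one ?_ h1
    exact Nat.one_lt_pow (by omega) hp.one_lt
  have hφ : ((p ^ k).totient : ℝ) = (p : ℝ) ^ (k - 1) * (p - 1) := by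
    rw [Nat.totient_prime_pow hp (by omega)]
    push_cast [Nat.cast_sub hp.one_le]
    ring
  have hφ0 : 0 < (p ^ k).totient := Nat.totient_pos.2 (pow_pos hp.pos k)
  rw [← hφ] at hv
  have hπ := lf_val w.1 p _ hne _ hp0 hw hv
  -- independence in `M`
  have hli : LinearIndependent L0 (fun j : Fin (p ^ k).totient =>
      ((1 : M) - ⟨z, hzM⟩) ^ (j : ℕ)) := by
    refine hVLI L0 M w.1 hna (w.1 (p : M)) hp0 hw ?_ (Fin (p ^ k).totient) _
      (fun j => (j : ℝ) / ((p ^ k).totient : ℝ)) ?_ ?_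
    · intro x hx
      refine hunr _ ?_ ?_
      · rw [halg x]
        exact x.2
      · intro h
        apply hx
        apply Subtype.ext
        rw [← halg x, h]
        rfl
    · intro j
      rw [map_pow, hπ, ← Real.rpow_natCast, ← Real.rpow_mul hp0.le]
      congr 1
      ring
    · intro i j hij n hn
      have hφR : (0 : ℝ) < ((p ^ k).totient : ℝ) := by exact_mod_cast hφ0
      have h1 : ((i : ℕ) : ℝ) - ((j : ℕ) : ℝ) = n * ((p ^ k).totient : ℝ) := by
        have h2 := hn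
        field_simp at h2
        linarith
      have h3 : ((i : ℕ) : ℤ) - ((j : ℕ) : ℤ) = n * (((p ^ k).totient : ℕ) : ℤ) := by
        exact_mod_cast h1
      have hi := i.2
      have hj := j.2
      have h4 : |((i : ℕ) : ℤ) - ((j : ℕ) : ℤ)| < (((p ^ k).totient : ℕ) : ℤ) := by
        rw [abs_lt]
        constructor <;> omega
      have h5 : (((p ^ k).totient : ℕ) : ℤ) ∣ ((i : ℕ) : ℤ) - ((j : ℕ) : ℤ) :=
        ⟨n, by rw [h3, mul_comm]⟩
      have h6 := Int.eq_zero_of_abs_lt_dvd h5 h4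
      apply hij
      apply Fin.ext
      omega
  -- independence in `L0(z)`
  have hzint : IsIntegral L0 z := by
    refine ⟨X ^ (p ^ k) - 1, monic_X_pow_sub_C (1 : L0) (pow_pos hp.pos k).ne', ?_⟩
    rw [eval₂_sub, eval₂_X_pow, eval₂_one, hz.pow_eq_one, sub_self]
  obtain ⟨g, hg⟩ : ∃ g : IntermediateField.adjoin L0 {z}, (g : Ω) = z :=
    ⟨IntermediateField.AdjoinSimple.gen L0 z, IntermediateField.AdjoinSimple.coe_gen L0 z⟩
  have hli2 : LinearIndependent L0 (fun j : Fin (p ^ k).totient =>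
      ((1 : IntermediateField.adjoin L0 {z}) - g) ^ (j : ℕ)) := by
    rw [Fintype.linearIndependent_iff] at hli ⊢
    intro c hc
    refine hli c ?_
    apply Subtype.ext
    have h1 := congrArg Subtype.val hc
    rw [IntermediateField.coe_sum] at h1 ⊢
    refine Eq.trans (Finset.sum_congr rfl fun j _ => ?_) h1
    have h2 : (((c j) • ((1 : M) - ⟨z, hzM⟩) ^ (j : ℕ) : M) : Ω) =
        (c j : Ω) * ((1 : Ω) - z) ^ (j : ℕ) := by
      rw [Algebra.smul_def]
      rfl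
    have h3 : (((c j) • ((1 : IntermediateField.adjoin L0 {z}) - g) ^ (j : ℕ) :
        IntermediateField.adjoin L0 {z}) : Ω) = (c j : Ω) * ((1 : Ω) - (g : Ω)) ^ (j : ℕ) := by
      rw [Algebra.smul_def]
      rfl
    rw [h2, h3, hg]
  haveI : FiniteDimensional L0 (IntermediateField.adjoin L0 {z}) :=
    IntermediateField.adjoin.finiteDimensional hzint
  have h5 := hli2.fintype_card_le_finrank
  rw [Fintype.card_fin, IntermediateField.adjoin.finrank hzint] at h5
  exact h5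

theorem pf_LFT (hVLI : T_VLI) (hGQP : T_GQP) (hUNK : Pool.Agent.H29.LG.T_UNK)
    (hVB : Pool.Agent.H24.RD.T_VB) (hPFX : Pool.Agent.H29.RQ.T_PFX)
    (hFLD : Pool.Agent.H29.SX.T_FLD) : T_LFT := by
  classical
  intro Ω _ _ _ _ r m a N ζ θ hL p hp hpm hpa τ hτζ hτθ
  obtain ⟨k, m0, hpm0, hm⟩ := Nat.exists_eq_pow_mul_and_not_dvd hL.m0.ne' p hp.ne_one
  have hk : 1 ≤ k := by
    rcases Nat.eq_zero_or_pos k with h | h
    · rw [h, pow_zero, one_mul] at hm
      rw [hm] at hpm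
      exact absurd hpm hpm0
    · exact h
  have hm00 : 0 < m0 := Nat.pos_of_ne_zero fun h => hpm0 (h ▸ dvd_zero p)
  obtain ⟨n', hn'⟩ : ∃ n', n' = ∏ i, N i := ⟨_, rfl⟩
  have hn'0 : 0 < n' := by
    rw [hn']
    exact Finset.prod_pos fun i _ => hL.N0 i
  have hpN : ∀ i, ¬ p ∣ N i := by
    intro i h
    have h1 : p ∣ Nat.gcd m (N i) := Nat.dvd_gcd hpm h
    rw [(hL.copm i).gcd_eq_one] at h1
    exact hp.one_lt.ne' (Nat.dvd_one.1 h1)
  have hpn' : ¬ p ∣ n' := by
    rw [hn']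
    intro h
    obtain ⟨i, -, hi⟩ := (hp.prime.dvd_finset_prod_iff _).1 h
    exact hpN i hi
  have hN0 : 0 < m0 * n' := Nat.mul_pos hm00 hn'0
  have hpN0 : ¬ p ∣ m0 * n' := fun h => (hp.dvd_mul.1 h).elim hpm0 hpn'
  obtain ⟨L0, hL0⟩ : ∃ L0 : IntermediateField ℚ Ω, L0 = Lv ℚ Ω a (m0 * n') n' := ⟨_, rfl⟩
  have hmem1 : ∀ z : Ω, z ^ (m0 * n') = 1 → z ∈ L0 := by
    intro z hz
    rw [hL0]
    exact IntermediateField.subset_adjoin ℚ _ (Or.inl hz)
  have hmem2 : ∀ (z : Ω) (i : Fin r), z ^ n' = ((a i : ℚ) : Ω) → z ∈ L0 := by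
    intro z i hz
    rw [hL0]
    refine IntermediateField.subset_adjoin ℚ _ (Or.inr ⟨i, ?_⟩)
    rw [hz]
    rfl
  -- the root of unity
  obtain ⟨z, hz⟩ : ∃ z, z = ζ ^ m0 := ⟨_, rfl⟩
  have hzp : IsPrimitiveRoot z (p ^ k) := by
    rw [hz]
    exact hL.prim.pow hL.m0 (by rw [hm, mul_comm])
  -- the number field
  obtain ⟨s, hs⟩ : ∃ s : Finset Ω, ∀ x, x ∈ s ↔
      (x ^ (m0 * n') = 1 ∨ ∃ i, x ^ n' = algebraMap ℚ Ω (a i)) ∨ x = z := by
    refine ⟨((nthRoots (m0 * n') (1 : Ω)).toFinset ∪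
      Finset.univ.biUnion fun i => (nthRoots n' (algebraMap ℚ Ω (a i))).toFinset) ∪ {z}, ?_⟩
    intro x
    rw [Finset.mem_union, Finset.mem_union, Multiset.mem_toFinset, mem_nthRoots hN0,
      Finset.mem_biUnion, Finset.mem_singleton]
    refine or_congr (or_congr Iff.rfl ?_) Iff.rfl
    constructor
    · rintro ⟨i, -, hi⟩
      rw [Multiset.mem_toFinset, mem_nthRoots hn'0] at hi
      exact ⟨i, hi⟩
    · rintro ⟨i, hi⟩
      refine ⟨i, Finset.mem_univ _, ?_⟩
      rw [Multiset.mem_toFinset, mem_nthRoots hn'0]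
      exact hi
  obtain ⟨M, hMfin, -, hsM, -⟩ := hFLD ℚ Ω ⊥ inferInstance s
  haveI : FiniteDimensional ℚ M := hMfin
  haveI : NumberField M := { to_charZero := inferInstance, to_finiteDimensional := hMfin }
  have hle : L0 ≤ M := by
    rw [hL0]
    unfold Lv
    rw [IntermediateField.adjoin_le_iff]
    intro x hx
    exact hsM x ((hs x).2 (Or.inl hx))
  have hzM : z ∈ M := hsM z ((hs z).2 (Or.inr rfl))
  obtain ⟨w, hw⟩ : ∃ w : FinitePlace M, w.1 (p : M) < 1 := by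
    obtain ⟨P, hP, hsum, -⟩ := hPFX M p hp
    have h1 : P.Nonempty := by
      rw [Finset.nonempty_iff_ne_empty]
      intro h
      rw [h, Finset.sum_empty] at hsum
      have h2 : (0 : ℝ) < Module.finrank ℚ M := by exact_mod_cast Module.finrank_pos
      have h3 : 0 < Real.log p := Real.log_pos (by exact_mod_cast hp.one_lt)
      have h4 := mul_pos h2 h3
      linarith
    obtain ⟨w, hw⟩ := h1
    exact ⟨w, (hP w).1 hw⟩
  have hgood := hGQP r a hL.nz p hp hpa
  have hunr : ∀ x : M, (x : Ω) ∈ L0 → x ≠ 0 → ∃ n : ℤ, w.1 x = w.1 (p : M) ^ n := by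
    intro x hx hx0
    rw [hL0] at hx hle
    exact hUNK ℚ Ω r a hL.nz p hgood (m0 * n') n' hN0 (dvd_mul_left _ _) hpN0 M hle w hw x hx hx0
  have hdeg := lf_deg hVLI hVB L0 M hle p k hp hk z hzp hzM w hw hunr
  -- the minimal polynomial
  have hpk0 : 0 < p ^ k := pow_pos hp.pos k
  have hzint : IsIntegral L0 z := by
    refine ⟨X ^ (p ^ k) - 1, monic_X_pow_sub_C (1 : L0) hpk0.ne', ?_⟩
    rw [eval₂_sub, eval₂_X_pow, eval₂_one, hzp.pow_eq_one, sub_self]
  have hcyc : ∀ y : Ω, IsPrimitiveRoot y (p ^ k) → aeval y (cyclotomic (p ^ k) L0) = 0 := by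
    intro y hy
    have h1 := hy.isRoot_cyclotomic hpk0
    rw [IsRoot.def, ← map_cyclotomic (p ^ k) (algebraMap L0 Ω), eval_map_algebraMap] at h1
    exact h1
  have hmin : minpoly L0 z = cyclotomic (p ^ k) L0 := by
    refine (eq_of_monic_of_dvd_of_natDegree_le (minpoly.monic hzint)
      (cyclotomic.monic (p ^ k) L0) (minpoly.dvd L0 z (hcyc z hzp)) ?_).symm
    rw [natDegree_cyclotomic]
    exact hdeg
  have hτz : IsPrimitiveRoot (τ z) (p ^ k) := hzp.map_of_injective τ.injective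
  have hirr : Irreducible (cyclotomic (p ^ k) L0) := by
    rw [← hmin]
    exact minpoly.irreducible hzint
  have hmin2 : minpoly L0 (τ z) = cyclotomic (p ^ k) L0 :=
    (minpoly.eq_of_irreducible_of_monic hirr (hcyc _ hτz) (cyclotomic.monic _ _)).symm
  haveI : Algebra.IsAlgebraic L0 Ω := Algebra.IsAlgebraic.tower_top (K := ℚ) L0
  haveI : IsAlgClosure L0 Ω := ⟨inferInstance, inferInstance⟩
  haveI : Normal L0 Ω := IsAlgClosure.normal L0 Ω
  have hconj : IsConjRoot L0 (τ z) z := by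
    unfold IsConjRoot
    rw [hmin, hmin2]
  obtain ⟨σ, hσ⟩ := isConjRoot_iff_exists_algEquiv.1 hconj
  have hσL : ∀ x ∈ L0, σ x = x := fun x hx => σ.commutes ⟨x, hx⟩
  obtain ⟨τ', hτ'⟩ : ∃ τ' : Ω ≃ₐ[ℚ] Ω, ∀ x, τ' x = σ x :=
    ⟨σ.restrictScalars ℚ, fun x => rfl⟩
  have hτL : ∀ x ∈ L0, τ' x = x := fun x hx => by rw [hτ', hσL x hx]
  have hτz' : τ' z = τ z := by rw [hτ', hσ]
  have hζ0 : ζ ≠ 0 := hL.prim.ne_zero hL.m0.ne'
  have hcop : Nat.Coprime (p ^ k) m0 :=
    Nat.Coprime.pow_left k ((Nat.Prime.coprime_iff_not_dvd hp).2 hpm0)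
  -- powers
  have hτζ' : ∀ j : ℕ, τ ((ζ ^ p) ^ j) = (ζ ^ p) ^ j := fun j => by rw [map_pow, hτζ]
  refine ⟨τ', ?_, ?_⟩
  · refine lf_eq_on _ τ' τ ?_
    intro x hx
    rcases hx with rfl | ⟨i, rfl⟩
    · refine lf_bez τ' τ x hζ0 (p ^ k) m0 hcop ?_ ?_
      · have h1 : x ^ p ^ k ∈ L0 := by
          apply hmem1
          rw [← pow_mul, ← mul_assoc, ← hm, pow_mul, hL.prim.pow_eq_one, one_pow]
        rw [hτL _ h1]
        have h2 : x ^ p ^ k = (x ^ p) ^ (p ^ (k - 1)) := by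
          rw [← pow_mul, ← pow_succ', Nat.sub_add_cancel hk]
        rw [h2, hτζ']
      · rw [← hz]
        exact hτz'
    · rw [hτθ i]
      apply hτL
      obtain ⟨ρ, hρ⟩ := IsAlgClosed.exists_pow_nat_eq (((a i : ℚ) : Ω)) hn'0
      have hai : ((a i : ℚ) : Ω) ≠ 0 := by
        exact_mod_cast hL.nz i
      have hρ0 : ρ ≠ 0 := by
        intro h
        rw [h, zero_pow hn'0.ne'] at hρ
        exact hai hρ.symm
      obtain ⟨q, hq⟩ : ∃ q, n' = N i * q := by
        rw [hn']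
        exact Finset.dvd_prod_of_mem N (Finset.mem_univ i)
      have h1 : (ρ ^ q) ^ N i = ((a i : ℚ) : Ω) := by
        rw [← pow_mul, mul_comm q, ← hq, hρ]
      have h2 : (θ i / ρ ^ q) ^ (m0 * n') = 1 := by
        have h3 : (θ i / ρ ^ q) ^ N i = 1 := by
          rw [div_pow, h1, hL.pow i, div_self hai]
        rw [hq, show m0 * (N i * q) = N i * (m0 * q) by ring, pow_mul, h3, one_pow]
      have h4 : θ i = θ i / ρ ^ q * ρ ^ q := by
        rw [div_mul_cancel₀ _ (pow_ne_zero _ hρ0)]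
      rw [h4]
      exact mul_mem (hmem1 _ h2) (pow_mem (hmem2 ρ i hρ) q)
  · intro x hx
    have h0 : ∀ x ∈ IntermediateField.adjoin ℚ {x : Ω | x ^ (m * (∏ i, N i) / p) = 1 ∨
        ∃ i, x ^ (∏ i, N i) = algebraMap ℚ Ω (a i)}, τ' x = (AlgEquiv.refl : Ω ≃ₐ[ℚ] Ω) x := by
      refine lf_eq_on _ τ' AlgEquiv.refl ?_
      intro x hx
      rcases hx with hx | ⟨i, hi⟩
      · rw [← hn'] at hx
        have hexp : m * n' / p = p ^ (k - 1) * (m0 * n') := by
          have h1 : m * n' = p * (p ^ (k - 1) * (m0 * n')) := by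
            rw [hm]
            have h2 : p ^ k = p * p ^ (k - 1) := by
              rw [← pow_succ', Nat.sub_add_cancel hk]
            rw [h2]
            ring
          rw [h1, Nat.mul_div_cancel_left _ hp.pos]
        rw [hexp] at hx
        have hx0 : x ≠ 0 := by
          intro h
          rw [h, zero_pow (Nat.mul_pos (pow_pos hp.pos _) hN0).ne'] at hx
          exact zero_ne_one hx
        refine lf_bez τ' AlgEquiv.refl x hx0 (p ^ (k - 1)) (m0 * n')
          (Nat.Coprime.pow_left _ ((Nat.Prime.coprime_iff_not_dvd hp).2 hpN0)) ?_ ?_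
        · change τ' (x ^ p ^ (k - 1)) = x ^ p ^ (k - 1)
          apply hτL
          apply hmem1
          rw [← pow_mul]
          exact hx
        · change τ' (x ^ (m0 * n')) = x ^ (m0 * n')
          have h1 : (x ^ (m0 * n')) ^ (p ^ (k - 1)) = 1 := by
            rw [← pow_mul, mul_comm]
            exact hx
          have h2 : IsPrimitiveRoot (z ^ p) (p ^ (k - 1)) :=
            hzp.pow hpk0 (by rw [← pow_succ', Nat.sub_add_cancel hk])
          haveI : NeZero (p ^ (k - 1)) := ⟨(pow_pos hp.pos _).ne'⟩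
          obtain ⟨j, -, hj⟩ := h2.eq_pow_of_pow_eq_one h1
          rw [← hj, map_pow, map_pow, hτz', ← map_pow τ]
          have h3 : z ^ p = (ζ ^ p) ^ m0 := by
            rw [hz, ← pow_mul, ← pow_mul, mul_comm]
          rw [h3, hτζ']
      · change τ' x = x
        rw [← hn'] at hi
        exact hτL x (hmem2 x i hi)
    exact h0 x hx

end Pool.Agent.H49.REM
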