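import Pool.Agent.H26.REM.Targets

set_option autoImplicit false

/-!
# TOW: discriminants in towers
-/

namespace Pool.Agent.H49.REM

open Pool.Agent.H26.REM NumberField

theorem pf_TOW : T_TOW := by
  intro K M _ _ _ _ _
  have h := NumberField.natAbs_discr_eq_absNorm_differentIdeal_mul_natAbs_discr_pow K (𝓞 K) M (𝓞 M)
  rw [← Int.natAbs_dvd_natAbs, Int.natAbs_pow, h]
  exact dvd_mul_left _ _

end Pool.Agent.H49.REM
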