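import Pool.Agent.H26.REM.Targets4

set_option autoImplicit false

/-!
# LTF: the elements which are bounded at the finite places form a lattice
-/

namespace Pool.Agent.H49.REM

open Pool.Agent.H26.REM NumberField Finset

section
variable {M : Type} [Field M] [NumberField M]

theorem fp_int_le (v : FinitePlace M) (x : 𝓞 M) : v.1 (x : M) ≤ 1 := by
  have h := FinitePlace.norm_le_one M (FinitePlace.maximalIdeal v) x
  have h2 := FinitePlace.norm_embedding_eq v (x : M)
  rw [← FinitePlace.coe_apply, ← h2]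
  exact h

theorem fp_nat_le (v : FinitePlace M) (n : ℕ) : v.1 (n : M) ≤ 1 := by
  have h := fp_int_le v (n : 𝓞 M)
  have e : ((n : 𝓞 M) : M) = (n : M) := map_natCast (algebraMap (𝓞 M) M) n
  rw [e] at h
  exact h

theorem fp_zint_le (v : FinitePlace M) (n : ℤ) : v.1 (n : M) ≤ 1 := by
  have h := fp_int_le v (n : 𝓞 M)
  have e : ((n : 𝓞 M) : M) = (n : M) := map_intCast (algebraMap (𝓞 M) M) n
  rw [e] at h
  exact h

theorem fp_add (v : FinitePlace M) (x y : M) : v.1 (x + y) ≤ max (v.1 x) (v.1 y) :=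
  FinitePlace.add_le v x y

/-- every finite place has a natural number of absolute value less than one -/
theorem fp_small (v : FinitePlace M) : ∃ p : ℕ, p ≠ 0 ∧ v.1 (p : M) < 1 := by
  refine ⟨Ideal.absNorm (FinitePlace.maximalIdeal v).asIdeal, ?_, ?_⟩
  · rw [Ne, Ideal.absNorm_eq_zero_iff]
    exact (FinitePlace.maximalIdeal v).ne_bot
  · have h := (FinitePlace.norm_lt_one_iff_mem M (FinitePlace.maximalIdeal v)
      ((Ideal.absNorm (FinitePlace.maximalIdeal v).asIdeal : ℕ) : 𝓞 M)).2
      (Ideal.absNorm_mem _)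
    have h2 := FinitePlace.norm_embedding_eq v
      ((((Ideal.absNorm (FinitePlace.maximalIdeal v).asIdeal : ℕ) : 𝓞 M)) : M)
    rw [← FinitePlace.coe_apply]
    have h3 : v ((((Ideal.absNorm (FinitePlace.maximalIdeal v).asIdeal : ℕ) : 𝓞 M)) : M) < 1 := by
      rw [← h2]
      exact h
    have e : ((((Ideal.absNorm (FinitePlace.maximalIdeal v).asIdeal : ℕ) : 𝓞 M)) : M) =
        ((Ideal.absNorm (FinitePlace.maximalIdeal v).asIdeal : ℕ) : M) :=
      map_natCast (algebraMap (𝓞 M) M) _
    rw [e] at h3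
    exact h3

/-- a natural number which is small at all the given places -/
theorem fp_common (s : FinitePlace M → ℝ) (hs : ∀ v, 0 < s v) (hf : {v | s v ≠ 1}.Finite) :
    ∃ n : ℕ, n ≠ 0 ∧ ∀ v : FinitePlace M, v.1 (n : M) ≤ s v := by
  classical
  choose p hp0 hp1 using fun v : FinitePlace M => fp_small v
  have hk : ∀ v : FinitePlace M, ∃ k : ℕ, v.1 (p v : M) ^ k < s v := fun v =>
    exists_pow_lt_of_lt_one (hs v) (hp1 v)
  choose k hk using hk
  refine ⟨∏ v ∈ hf.toFinset, p v ^ k v, ?_, ?_⟩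
  · exact Finset.prod_ne_zero_iff.2 fun v _ => pow_ne_zero _ (hp0 v)
  · intro w
    by_cases hw : s w = 1
    · rw [hw]
      exact fp_nat_le w _
    · have hwF : w ∈ hf.toFinset := hf.mem_toFinset.2 hw
      rw [← Finset.mul_prod_erase _ _ hwF]
      push_cast
      rw [map_mul, map_pow]
      have h1 : w.1 (∏ x ∈ hf.toFinset.erase w, (p x : M) ^ k x) ≤ 1 := by
        have h2 := fp_nat_le w (∏ x ∈ hf.toFinset.erase w, p x ^ k x)
        push_cast at h2
        exact h2
      calc w.1 (p w : M) ^ k w * w.1 (∏ x ∈ hf.toFinset.erase w, (p x : M) ^ k x) ≤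
          w.1 (p w : M) ^ k w * 1 :=
            mul_le_mul_of_nonneg_left h1 (pow_nonneg (w.1.nonneg _) _)
        _ ≤ s w := by
            rw [mul_one]
            exact (hk w).le

theorem fp_integral (z : M) (h : ∀ v : FinitePlace M, v.1 z ≤ 1) :
    z ∈ (algebraMap (𝓞 M) M).range := by
  refine IsDedekindDomain.HeightOneSpectrum.mem_integers_of_valuation_le_one M z fun v => ?_
  have h1 := h (FinitePlace.mk v)
  have h2 : ‖FinitePlace.embedding v z‖ ≤ 1 := h1
  rw [FinitePlace.norm_embedding, NumberField.HeightOneSpectrum.adicAbv_def] at h2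
  have h3 : WithZeroMulInt.toNNReal (NumberField.HeightOneSpectrum.absNorm_ne_zero v)
      (v.valuation M z) ≤ 1 := by exact_mod_cast h2
  exact (WithZeroMulInt.toNNReal_le_one_iff
    (NumberField.HeightOneSpectrum.one_lt_absNorm_nnreal v)).1 h3

theorem lt_mem (t : FinitePlace M → ℝ) (ht : ∀ v, 0 < t v) (z : M) :
    z ∈ LT M t ↔ ∀ v : FinitePlace M, v.1 z ≤ t v := by
  constructor
  · intro hz
    unfold Pool.Agent.H26.REM.LT at hz
    refine Submodule.span_induction (p := fun z _ => ∀ v : FinitePlace M, v.1 z ≤ t v)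
      ?_ ?_ ?_ ?_ hz
    · intro x hx
      exact hx
    · intro v
      rw [map_zero]
      exact (ht v).le
    · intro x y _ _ hx hy v
      exact (fp_add v x y).trans (max_le (hx v) (hy v))
    · intro n x _ hx v
      rw [zsmul_eq_mul, map_mul]
      calc v.1 (n : M) * v.1 x ≤ 1 * t v :=
            mul_le_mul (fp_zint_le v n) (hx v) (v.1.nonneg _) zero_le_one
        _ = t v := one_mul _
  · intro hz
    exact Submodule.subset_span hz

end

theorem pf_LTF : T_LTF := by
  intro M _ _ t ht hf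
  refine ⟨lt_mem t ht, ?_, ?_⟩
  · obtain ⟨c, hc0, hc⟩ := fp_common (fun v => (t v)⁻¹) (fun v => inv_pos.2 (ht v)) (by
      refine hf.subset fun v hv => ?_
      intro h
      apply hv
      change (t v)⁻¹ = 1
      rw [h, inv_one])
    have hcM : (c : M) ≠ 0 := by exact_mod_cast hc0
    obtain ⟨f, hfd⟩ : ∃ f : M →ₗ[ℤ] M, ∀ x, f x = (c : M) * x :=
      ⟨(AddMonoidHom.mulLeft (c : M)).toIntLinearMap, fun x => rfl⟩
    refine Submodule.fg_of_fg_map_injective f ?_ ?_
    · intro x y hxy
      rw [hfd, hfd] at hxy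
      exact mul_left_cancel₀ hcM hxy
    · obtain ⟨N, hN⟩ : ∃ N : Submodule ℤ M,
          N = LinearMap.range (algebraMap (𝓞 M) M).toAddMonoidHom.toIntLinearMap := ⟨_, rfl⟩
      have hNn : IsNoetherian ℤ N := by
        rw [hN]
        infer_instance
      have hle : (LT M t).map f ≤ N := by
        rintro _ ⟨z, hz, rfl⟩
        have hz2 := (lt_mem t ht z).1 hz
        obtain ⟨y, hy⟩ := fp_integral ((c : M) * z) fun v => by
          rw [map_mul]
          calc v.1 (c : M) * v.1 z ≤ (t v)⁻¹ * t v :=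
                mul_le_mul (hc v) (hz2 v) (v.1.nonneg _) (inv_pos.2 (ht v)).le
            _ = 1 := inv_mul_cancel₀ (ht v).ne'
        rw [hN, hfd]
        exact ⟨y, hy⟩
      exact (isNoetherian_submodule.1 hNn) _ hle
  · obtain ⟨c, hc0, hc⟩ := fp_common t ht hf
    rw [eq_top_iff]
    rintro z -
    obtain ⟨d, hd0, hd⟩ := ((IsFractionRing.isAlgebraic_iff ℤ ℚ M).2
      (Algebra.IsAlgebraic.isAlgebraic (R := ℚ) z)).exists_integral_multiple
    have h1 : ((c : ℚ) * (d : ℚ)) ≠ 0 :=
      mul_ne_zero (by exact_mod_cast hc0) (by exact_mod_cast hd0)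
    have h2 : (c : M) * (d • z) ∈ LT M t := by
      rw [lt_mem t ht]
      intro v
      rw [map_mul]
      have h3 : v.1 (d • z) ≤ 1 := fp_int_le v (⟨d • z, hd⟩ : 𝓞 M)
      calc v.1 (c : M) * v.1 (d • z) ≤ t v * 1 :=
            mul_le_mul (hc v) h3 (v.1.nonneg _) (ht v).le
        _ = t v := mul_one _
    have h3 : z = ((c : ℚ) * (d : ℚ))⁻¹ • ((c : M) * (d • z)) := by
      rw [Algebra.smul_def, zsmul_eq_mul, map_inv₀, map_mul, map_natCast, map_intCast]
      have h4 : (c : M) ≠ 0 := by exact_mod_cast hc0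
      have h5 : (d : M) ≠ 0 := by exact_mod_cast hd0
      field_simp
    rw [h3]
    exact Submodule.smul_mem _ _ (Submodule.subset_span h2)

end Pool.Agent.H49.REM
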