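import Pool.Agent.H26.REM.Targets

set_option autoImplicit false

/-!
# SLP: Lemma S for the elements of the ideal of a tuple
-/

namespace Pool.Agent.H49.REM

open Pool.Agent.H26.REM NumberField Height Finset

/-- the diagonal map -/
noncomputable def dgm {ι : Type} (d : ι → ℂ) : EuclideanSpace ℂ ι →ₗ[ℂ] EuclideanSpace ℂ ι where
  toFun x := WithLp.toLp 2 fun s => d s * x s
  map_add' x y := by
    ext s
    simp [mul_add]
  map_smul' c x := by
    ext s
    simp only [RingHom.id_apply, PiLp.smul_apply, smul_eq_mul]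
    ring

theorem dgm_apply {ι : Type} (d : ι → ℂ) (x : EuclideanSpace ℂ ι) (s : ι) :
    dgm d x s = d s * x s := rfl

theorem dgm_norm {ι : Type} [Fintype ι] (d : ι → ℂ) (hd : ∀ s, ‖d s‖ ≤ 1)
    (x : EuclideanSpace ℂ ι) : ‖dgm d x‖ ≤ ‖x‖ := by
  rw [EuclideanSpace.norm_eq, EuclideanSpace.norm_eq]
  refine Real.sqrt_le_sqrt (Finset.sum_le_sum fun s _ => ?_)
  rw [dgm_apply, norm_mul]
  refine pow_le_pow_left₀ (by positivity) ?_ 2
  calc ‖d s‖ * ‖x s‖ ≤ 1 * ‖x s‖ := mul_le_mul_of_nonneg_right (hd s) (norm_nonneg _)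
    _ = ‖x s‖ := one_mul _

theorem vec_apply {M : Type} [Field M] [NumberField M] (w : (M →+* ℂ) → ℝ) (x : M)
    (s : M →+* ℂ) : vec M w x s = (w s : ℂ) * s x := rfl

/-- the weights of the products -/
theorem wt_mul_le {M S T : Type} [Field M] [Finite S] [Finite T] (Y : S → M) (G : T → M)
    (s : M →+* ℂ) (t : T) (hY : 0 < wt Y s)
    (hYG : 0 < wt (fun a : S × T => Y a.1 * G a.2) s) :
    ‖s (G t)‖ * wt (fun a : S × T => Y a.1 * G a.2) s ≤ wt Y s := by
  have h1 : 0 < ⨆ b, ‖s (Y b)‖ := by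
    have h2 : 0 < (⨆ b, ‖s (Y b)‖)⁻¹ := hY
    exact inv_pos.1 h2
  have h3 : 0 < ⨆ a : S × T, ‖s (Y a.1 * G a.2)‖ := by
    have h2 : 0 < (⨆ a : S × T, ‖s (Y a.1 * G a.2)‖)⁻¹ := hYG
    exact inv_pos.1 h2
  have hne : Nonempty S := by
    by_contra h
    rw [not_nonempty_iff] at h
    rw [Real.iSup_of_isEmpty] at h1
    exact lt_irrefl _ h1
  obtain ⟨b0, hb0⟩ := exists_eq_ciSup_of_finite (f := fun b => ‖s (Y b)‖)
  have h4 : ‖s (G t)‖ * ⨆ b, ‖s (Y b)‖ ≤ ⨆ a : S × T, ‖s (Y a.1 * G a.2)‖ := by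
    rw [← hb0]
    have h5 := le_ciSup (f := fun a : S × T => ‖s (Y a.1 * G a.2)‖)
      (Set.finite_range _).bddAbove (b0, t)
    refine le_trans (le_of_eq ?_) h5
    change ‖s (G t)‖ * ‖s (Y b0)‖ = ‖s (Y b0 * G t)‖
    rw [map_mul, norm_mul, mul_comm]
  unfold wt
  rw [← div_eq_mul_inv, div_le_iff₀ h3, ← div_eq_inv_mul, le_div_iff₀ h1]
  exact h4

theorem isBas_card {V : Type} [AddCommGroup V] [Module ℚ V] {L : Submodule ℤ V}
    {U : Submodule ℚ V} {a : ℕ} {x : Fin a → V} (h : IsBas L U x) :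
    Module.finrank ℚ U = a := by
  have h1 := finrank_span_eq_card h.1
  rw [h.2.1, Fintype.card_fin] at h1
  exact h1

theorem pf_SLP (hLS : T_LS) (hIDV : T_IDV) (hEMB : T_EMB) (hLLF : T_LLF) (hBEX : T_BEX)
    (hBLE : T_BLE) : T_SLP := by
  classical
  intro M _ _ S T _ _ Y G hY hG hspan k z hz hzL
  -- nonempty
  have hTne : Nonempty T := by
    by_contra h
    rw [not_nonempty_iff] at h
    rw [Set.range_eq_empty, Submodule.span_empty] at hspan
    exact bot_ne_top hspan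
  have hG0 : G ≠ 0 := by
    obtain ⟨t⟩ := hTne
    intro h
    exact hG t (congrFun h t)
  obtain ⟨YG, hYG⟩ : ∃ YG : S × T → M, YG = fun a => Y a.1 * G a.2 := ⟨_, rfl⟩
  have hYG0 : YG ≠ 0 := by
    obtain ⟨t⟩ := hTne
    obtain ⟨b, hb⟩ := Function.ne_iff.1 hY
    intro h
    have h1 := congrFun h (b, t)
    rw [hYG] at h1
    rcases mul_eq_zero.1 h1 with h2 | h2
    · exact hb h2
    · exact hG t h2
  obtain ⟨hFG, hsp, hwt⟩ := hLLF M S Y hY
  obtain ⟨hFG', hsp', hwt'⟩ := hLLF M (S × T) YG hYG0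
  have hem := (hEMB M (wt Y) (wt Y) hwt hwt).1
  have hem' := (hEMB M (wt YG) (wt YG) hwt' hwt').1
  obtain ⟨n, ⟨e⟩⟩ := Finite.exists_equiv_fin T
  -- the maps
  obtain ⟨g, hg⟩ : ∃ g : Fin n → M →ₗ[ℚ] M, ∀ i x, g i x = G (e.symm i) * x :=
    ⟨fun i => LinearMap.mulLeft ℚ (G (e.symm i)), fun i x => rfl⟩
  obtain ⟨d, hd⟩ : ∃ d : Fin n → (M →+* ℂ) → ℂ, ∀ i s,
      d i s = s (G (e.symm i)) * ((wt YG s : ℂ) / (wt Y s : ℂ)) := ⟨_, fun i s => rfl⟩
  have hdn : ∀ i s, ‖d i s‖ ≤ 1 := by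
    intro i s
    have h1 := wt_mul_le Y G s (e.symm i) (hwt s) (by rw [← hYG]; exact hwt' s)
    rw [← hYG] at h1
    rw [hd, norm_mul, norm_div, Complex.norm_real, Complex.norm_real,
      Real.norm_of_nonneg (hwt' s).le, Real.norm_of_nonneg (hwt s).le, mul_div_assoc',
      div_le_one (hwt s)]
    exact h1
  have hcomm : ∀ i x, vec M (wt YG) (g i x) = dgm (d i) (vec M (wt Y) x) := by
    intro i x
    ext s
    rw [dgm_apply, vec_apply, vec_apply, hg, hd, map_mul]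
    have h1 : ((wt Y s : ℝ) : ℂ) ≠ 0 := by exact_mod_cast (hwt s).ne'
    field_simp
  have hinj : ∀ i, Function.Injective (g i) := by
    intro i x y hxy
    rw [hg, hg] at hxy
    exact mul_left_cancel₀ (hG _) hxy
  have hmap : ∀ i, ∀ x ∈ LL Y, g i x ∈ LL YG := by
    intro i x hx
    rw [hg]
    have hx' : x ∈ Submodule.span (𝓞 M) (Set.range Y) := hx
    change G (e.symm i) * x ∈ Submodule.span (𝓞 M) (Set.range YG)
    refine Submodule.span_induction (p := fun x _ => G (e.symm i) * x ∈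
      Submodule.span (𝓞 M) (Set.range YG)) ?_ ?_ ?_ ?_ hx'
    · rintro _ ⟨b, rfl⟩
      refine Submodule.subset_span ⟨(b, e.symm i), ?_⟩
      rw [hYG]
      exact mul_comm _ _
    · rw [mul_zero]
      exact zero_mem _
    · intro x y _ _ hx hy
      rw [mul_add]
      exact add_mem hx hy
    · intro c x _ hx
      rw [mul_smul_comm]
      exact Submodule.smul_mem _ _ hx
  have hsup : ∀ U : Submodule ℚ M, U ≠ ⊥ → ⨆ i, U.map (g i) = ⊤ := by
    intro U hU
    obtain ⟨u, huU, hu0⟩ := Submodule.exists_mem_ne_zero_of_ne_bot hU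
    rw [eq_top_iff]
    rintro y -
    have h1 : y / u ∈ Submodule.span ℚ (Set.range G) := by
      rw [hspan]
      exact Submodule.mem_top
    have h2 : ∀ x ∈ Submodule.span ℚ (Set.range G), x * u ∈ ⨆ i, U.map (g i) := by
      intro x hx
      refine Submodule.span_induction (p := fun x _ => x * u ∈ ⨆ i, U.map (g i)) ?_ ?_ ?_ ?_ hx
      · rintro _ ⟨t, rfl⟩
        refine Submodule.mem_iSup_of_mem (e t) ⟨u, huU, ?_⟩
        rw [hg, Equiv.symm_apply_apply]
      · rw [zero_mul]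
        exact zero_mem _
      · intro x y _ _ hx hy
        rw [add_mul]
        exact add_mem hx hy
      · intro c x _ hx
        rw [smul_mul_assoc]
        exact Submodule.smul_mem _ _ hx
    have h3 := h2 _ h1
    rwa [div_mul_cancel₀ _ hu0] at h3
  -- bases
  obtain ⟨U, hU⟩ : ∃ U, U = Submodule.span ℚ (Set.range z) := ⟨_, rfl⟩
  obtain ⟨a, -, z0, -, hz0, -⟩ := hBEX M (LL Y) hFG U U le_rfl (by rw [hsp]; exact le_top)
  have hak : a = k := by
    have h1 := isBas_card hz0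
    have h2 := finrank_span_eq_card hz
    rw [← hU, Fintype.card_fin] at h2
    omega
  subst hak
  obtain ⟨a', -, z', -, hz', -⟩ := hBEX M (LL YG) hFG' ⊤ ⊤ le_rfl (by rw [hsp'])
  have hLSr := hLS M (EuclideanSpace ℂ (M →+* ℂ)) (EuclideanSpace ℂ (M →+* ℂ)) (LL Y) (LL YG)
    (vec M (wt Y)) (vec M (wt YG)) hem hem' hFG hFG' hsp hsp' n g (fun i => dgm (d i)) hcomm
    (fun i x => dgm_norm (d i) (hdn i) x) hinj hmap hsup a' z' hz' U a z0 hz0
  rw [hIDV M (S × T) YG hYG0 a' z' hz'] at hLSr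
  have hBL := hBLE M (EuclideanSpace ℂ (M →+* ℂ)) (Fin a) (Fin a) (LL Y) U (vec M (wt Y)) z0 z
    hz0 hz (fun i => ⟨hzL i, by rw [hU]; exact Submodule.subset_span ⟨i, rfl⟩⟩) rfl
  have hht : logHeight YG = logHeight Y + logHeight G := by
    rw [hYG]
    exact logHeight_fun_mul_eq hY hG0
  obtain ⟨Γ, hΓ⟩ : ∃ Γ, Γ = GD fun i => vec M (wt Y) (z i) := ⟨_, rfl⟩
  obtain ⟨D, hD⟩ : ∃ D, D = Module.finrank ℚ M := ⟨_, rfl⟩
  have hD0 : 0 < D := by rw [hD]; exact Module.finrank_pos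
  have hD0R : (0 : ℝ) < D := by exact_mod_cast hD0
  have hdisc : 0 < |(discr M : ℝ)| := by
    refine abs_pos.2 ?_
    exact_mod_cast discr_ne_zero M
  have hG0n : 0 ≤ GD fun i => vec M (wt Y) (z0 i) := norm_nonneg _
  have hmain : (|(discr M : ℝ)| * Real.exp (-2 * logHeight YG)) ^ a ≤ Γ ^ D := by
    rw [hΓ, hD]
    exact hLSr.trans (pow_le_pow_left₀ hG0n hBL _)
  have hpos : 0 < |(discr M : ℝ)| * Real.exp (-2 * logHeight YG) := by positivity
  have hΓ0 : 0 < Γ := by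
    have h1 : 0 ≤ Γ := by rw [hΓ]; exact norm_nonneg _
    rcases h1.eq_or_lt with h2 | h2
    · rw [← h2, zero_pow hD0.ne'] at hmain
      exact absurd hmain (not_le.2 (pow_pos hpos _))
    · exact h2
  have hlog := Real.log_le_log (pow_pos hpos a) hmain
  rw [Real.log_pow, Real.log_pow, Real.log_mul hdisc.ne' (Real.exp_pos _).ne', Real.log_exp,
    hht] at hlog
  rw [← hΓ, ← hD, ← Real.le_log_iff_exp_le hΓ0, div_mul_eq_mul_div, div_le_iff₀ hD0R]
  linarith

end Pool.Agent.H49.REM
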